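import Pool.Agent.Helper19.HV.XS

/-! Project HV (owner helper19), module Y2. -/

set_option autoImplicit false

open Polynomial

namespace Pool.Agent.Helper19.HV

noncomputable section

open PL

private theorem y2_kil_add {k : ℕ} {F : Type} [Field F] {N : Type} [AddCommGroup N] [Module ℚ N]
    {f g : P1 F → N} (hf : Kil k f) (hg : Kil k g) : Kil k (fun x => f x + g x) := by
  intro α hα
  have h1 := hf α hα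
  have h2 := hg α hα
  rw [Finsupp.linearCombination_apply] at h1 h2 ⊢
  simp only [smul_add]
  rw [Finsupp.sum_add, h1, h2, add_zero]

private theorem y2_ls_add {F : Type} [Field F]
    {L L' : P1 (RatFunc F) → (V (RatFunc F) →ₗ[ℚ] V (RatFunc F) →ₗ[ℚ] ℚ)}
    (hL : Ls L) (hL' : Ls L') : Ls fun x => L x + L' x := by
  refine ⟨y2_kil_add hL.kil hL'.kil, ?_, ?_⟩
  · intro x v
    rw [LinearMap.add_apply, LinearMap.add_apply, hL.alt x v, hL'.alt x v, add_zero]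
  · intro c u k
    rw [LinearMap.add_apply, LinearMap.add_apply, hL.cst c u k, hL'.cst c u k, add_zero]

private theorem y2_anti {U : Type} [AddCommGroup U] [Module ℚ U] {A : U →ₗ[ℚ] U →ₗ[ℚ] ℚ}
    (hA : Al2 A) (v w : U) : A v w = - A w v := by
  have h := hA (v + w)
  simp only [map_add, LinearMap.add_apply, hA v, hA w] at h
  linarith

theorem mY2 {F : Type} [Field F]
    (hY2A : ∀ {Ψ : P1 (RatFunc F) → (V (RatFunc F) →ₗ[ℚ] ℚ)}, Ps Ψ →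
      ∃ L, Ls L ∧ ∀ (x : P1 (RatFunc F)) (u : F),
        L x (cl x) (lg (RatFunc.C u)) = Ψ x (lg (RatFunc.C u)))
    (hPSL : ∀ {Ψ : P1 (RatFunc F) → (V (RatFunc F) →ₗ[ℚ] ℚ)}, Ps Ψ →
      ∀ {L : P1 (RatFunc F) → (V (RatFunc F) →ₗ[ℚ] V (RatFunc F) →ₗ[ℚ] ℚ)}, Ls L →
        Ps fun x => Ψ x - L x (cl x))
    (hMPS : ∀ {Ψ : P1 (RatFunc F) → (V (RatFunc F) →ₗ[ℚ] ℚ)}, Ps Ψ →
      (∀ x (u : F), Ψ x (lg (RatFunc.C u)) = 0) → ∃ M : F4 F, Fm Ψ M)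
    (hSYM : ∀ M : F4 F, (∀ v w z, M v v w z = 0) → Cv4 M →
      ∃ φ : F4 F, Frm φ ∧ (∀ w v, φ w v v v = M w v v v) ∧
        ∀ w a b, 3 * φ w a a b = M w a a b + M w a b a + M w b a a)
    (hPHI : ∀ {Ψ : P1 (RatFunc F) → (V (RatFunc F) →ₗ[ℚ] ℚ)} {M φ : F4 F}, Fm Ψ M →
      (∀ w a b, 3 * φ w a a b = M w a a b + M w a b a + M w b a a) → Fml φ Ψ)
    (hCal : ∀ φ : F4 F, Frm φ → (∀ x, Sv φ x) → Cal φ RatFunc.X)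
    (hFT : ∀ φ : F4 F, Frm φ → (∀ x, Sv φ x) → ∀ a b : F, a ≠ b →
      FT5 fun c : F => φ (E (a + c * (b - a))) (E a) (E a) (E b))
    (hL1C : ∀ D : F → F → F → ℚ, (∀ a b, a ≠ b → FT5 (D a b)) →
      (∀ a b, a ≠ b → ∀ c, D b a c = D a b (1 - c)) →
      ∃ L, Ls L ∧ (∀ x (u : F) k, L x (lg (RatFunc.C u)) k = 0) ∧
        ∃ vi : P1 (RatFunc F) → P1 F, Vinf vi ∧
          ∀ x a b, a ≠ b → L x (E a) (E b) = -3 * ext0 (D a b) (vi x))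
    (hVAN : ∀ {vi : P1 (RatFunc F) → P1 F}, Vinf vi →
      ∀ {Ψ0 Ψ1 : P1 (RatFunc F) → (V (RatFunc F) →ₗ[ℚ] ℚ)}
        {L : P1 (RatFunc F) → (V (RatFunc F) →ₗ[ℚ] V (RatFunc F) →ₗ[ℚ] ℚ)}, Ls L →
      (∀ x (u : F) k, L x (lg (RatFunc.C u)) k = 0) → ∀ {φ0 φ1 : F4 F},
      (∀ a b : F, a ≠ b → FT5 fun c : F => φ0 (E (a + c * (b - a))) (E a) (E a) (E b)) →
      (∀ x a b, a ≠ b → L x (E a) (E b) =
        -3 * ext0 (fun c : F => φ0 (E (a + c * (b - a))) (E a) (E a) (E b)) (vi x)) →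
      (∀ x k, Ψ1 x k = Ψ0 x k - L x (cl x) k) → Fml φ0 Ψ0 → Fml φ1 Ψ1 → Frm φ1 →
      Cal φ1 RatFunc.X → ∀ p a b : F, φ1 (E p) (E a) (E a) (E b) = 0)
    (hZ2 : ∀ φ : F4 F, Frm φ → (∀ x, Sv φ x) →
      (∀ p a b, φ (E p) (E a) (E a) (E b) = 0) → φ = 0)
    (hCON : ∀ M : F4 F, (∀ v w z, M v v w z = 0) → Cv4 M → (∀ w v, M w v v v = 0) →
      ∃ L : F4 F, Cv4 L ∧ (∀ v k l, L v v k l = 0) ∧ (∀ v w k, L v w k k = 0) ∧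
        ∀ x y k, L x y y k = M x y y k)
    (hLAF : ∀ L4 : F4 F, (∀ v k l, L4 v v k l = 0) → (∀ v w k, L4 v w k k = 0) →
      (∀ (c d u : F) k, L4 (lg (RatFunc.C c)) (lg (RatFunc.C d)) (lg (RatFunc.C u)) k = 0) →
      Ls fun x => L4 (cl1 x) (cl x))
    {Ψ : P1 (RatFunc F) → (V (RatFunc F) →ₗ[ℚ] ℚ)} (hΨ : Ps Ψ) :
    ∃ L, Ls L ∧ ∀ (x : P1 (RatFunc F)) k, Ψ x k = L x (cl x) k := by
  -- (1)
  obtain ⟨L0, hL0, hL0e⟩ := hY2A hΨ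
  obtain ⟨Ψ0, hΨ0d⟩ : ∃ Ψ0 : P1 (RatFunc F) → (V (RatFunc F) →ₗ[ℚ] ℚ),
      Ψ0 = fun x => Ψ x - L0 x (cl x) := ⟨_, rfl⟩
  have hΨ0 : Ps Ψ0 := by rw [hΨ0d]; exact hPSL hΨ hL0
  have hΨ0a : ∀ x k, Ψ0 x k = Ψ x k - L0 x (cl x) k := by
    intro x k
    rw [hΨ0d]
    rfl
  have hΨ0u : ∀ x (u : F), Ψ0 x (lg (RatFunc.C u)) = 0 := by
    intro x u
    rw [hΨ0a, hL0e, sub_self]
  -- (2)
  have key : ∀ (Φ : P1 (RatFunc F) → (V (RatFunc F) →ₗ[ℚ] ℚ)), Ps Φ →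
      (∀ x (u : F), Φ x (lg (RatFunc.C u)) = 0) →
      ∃ M φ : F4 F, Fm Φ M ∧ Frm φ ∧ (∀ w v, φ w v v v = M w v v v) ∧ (∀ x, Sv φ x) ∧
        Fml φ Φ := by
    intro Φ hΦ hΦu
    obtain ⟨M, hM⟩ := hMPS hΦ hΦu
    obtain ⟨φ, hφ, hφv, hφ3⟩ := hSYM M hM.alt hM.cv
    refine ⟨M, φ, hM, hφ, hφv, ?_, hPHI hM hφ3⟩
    intro x
    unfold Sv
    rw [hφv]
    have h1 := hM.eq (some x) (cl (some x))
    rw [hΦ.cl] at h1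
    exact h1.symm
  obtain ⟨M0, φ0, hM0, hφ0, -, hSv0, hFml0⟩ := key Ψ0 hΨ0 hΨ0u
  have hcal0 := hCal φ0 hφ0 hSv0
  -- (3)
  have hsym : ∀ a b : F, a ≠ b → ∀ c,
      φ0 (E (b + c * (a - b))) (E b) (E b) (E a) =
        φ0 (E (a + (1 - c) * (b - a))) (E a) (E a) (E b) := by
    intro a b _ c
    have h1 : b + c * (a - b) = a + (1 - c) * (b - a) := by ring
    rw [h1, hφ0.s23, hφ0.s12]
    exact ((hcal0 a b (a + (1 - c) * (b - a))).2.1).symm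
  obtain ⟨L1, hL1, hL1c, vi, hvi, hL1E⟩ := hL1C
    (fun a b c => φ0 (E (a + c * (b - a))) (E a) (E a) (E b)) (hFT φ0 hφ0 hSv0) hsym
  obtain ⟨Ψ1, hΨ1d⟩ : ∃ Ψ1 : P1 (RatFunc F) → (V (RatFunc F) →ₗ[ℚ] ℚ),
      Ψ1 = fun x => Ψ0 x - L1 x (cl x) := ⟨_, rfl⟩
  have hΨ1 : Ps Ψ1 := by rw [hΨ1d]; exact hPSL hΨ0 hL1
  have hΨ1a : ∀ x k, Ψ1 x k = Ψ0 x k - L1 x (cl x) k := by
    intro x k
    rw [hΨ1d]
    rfl
  have hΨ1u : ∀ x (u : F), Ψ1 x (lg (RatFunc.C u)) = 0 := by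
    intro x u
    rw [hΨ1a, hΨ0u, y2_anti (hL1.alt x), hL1c]
    simp
  -- (4)
  obtain ⟨M1, φ1, hM1, hφ1, hφ1v, hSv1, hFml1⟩ := key Ψ1 hΨ1 hΨ1u
  have h0 := hVAN hvi hL1 hL1c (hFT φ0 hφ0 hSv0) hL1E hΨ1a hFml0 hFml1 hφ1
    (hCal φ1 hφ1 hSv1)
  have hz := hZ2 φ1 hφ1 hSv1 h0
  have hM1v : ∀ w v, M1 w v v v = 0 := by
    intro w v
    rw [← hφ1v, hz]
    rfl
  -- (5)
  obtain ⟨L4, hcv, ha1, ha2, he⟩ := hCON M1 hM1.alt hM1.cv hM1v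
  have hL2 := hLAF L4 ha1 ha2 (fun c d u k => hcv.c1 c _ _ k)
  -- (6)
  refine ⟨fun x => (L0 x + L1 x) + L4 (cl1 x) (cl x), y2_ls_add (y2_ls_add hL0 hL1) hL2, ?_⟩
  intro x k
  rw [LinearMap.add_apply, LinearMap.add_apply, LinearMap.add_apply, LinearMap.add_apply, he,
    ← hM1.eq x k, hΨ1a, hΨ0a]
  ring

end

end Pool.Agent.Helper19.HV
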