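import Pool.Agent.Helper19.HV.XS

/-! Project HV (owner helper19), module Y3C. -/

set_option autoImplicit false

open Polynomial

namespace Pool.Agent.Helper19.HV

noncomputable section

open PL

private theorem y3c_anti {U N : Type} [AddCommGroup U] [Module ℚ U] [AddCommGroup N] [Module ℚ N]
    {A : U →ₗ[ℚ] U →ₗ[ℚ] N} (hA : Al2 A) (v w : U) : A v w = - A w v := by
  have h := hA (v + w)
  simp only [map_add, LinearMap.add_apply, hA v, hA w, zero_add, add_zero] at h
  exact eq_neg_of_add_eq_zero_right h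

private theorem y3c_e1 {U N : Type} [AddCommGroup U] [Module ℚ U] [AddCommGroup N] [Module ℚ N]
    {A : U →ₗ[ℚ] U →ₗ[ℚ] N} {g g' : U} (h : ∀ v, A g v = 0) (h' : ∀ v, A v g' = 0) (e f : U) :
    A (e - g) (f - g') = A e f ∧ A (g - e) (g' + f) = - A e f ∧
      A (g + e) (g' + f) = A e f := by
  refine ⟨?_, ?_, ?_⟩ <;>
    simp only [map_sub, map_add, LinearMap.sub_apply, LinearMap.add_apply, h, h', sub_zero,
      zero_sub, zero_add, neg_zero]

/-- a linear map on `VK` vanishing on the constants and on the classes `E a` is zero -/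
private theorem y3c_lin {F N : Type} [Field F] [AddCommGroup N] [Module ℚ N]
    {cV : V F →ₗ[ℚ] V (RatFunc F)}
    {lc : V (RatFunc F) →ₗ[ℚ] V F} {od : V (RatFunc F) →ₗ[ℚ] (F →₀ ℚ)} (hs : Spl cV lc od)
    (f : V (RatFunc F) →ₗ[ℚ] N) (hc : ∀ u : F, f (lg (RatFunc.C u)) = 0)
    (hE : ∀ a : F, f (E a) = 0) : f = 0 := by
  have h1 : f ∘ₗ cV = 0 := by
    refine LinearMap.ext_on span_lg ?_
    rintro _ ⟨u, rfl⟩
    rw [LinearMap.comp_apply, hs.cV_lg, hc, LinearMap.zero_apply]
  have h2 : f ∘ₗ Finsupp.linearCombination ℚ E = 0 := by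
    refine Finsupp.lhom_ext' (fun a => LinearMap.ext_ring ?_)
    rw [LinearMap.comp_apply, LinearMap.comp_apply, Finsupp.lsingle_apply,
      Finsupp.linearCombination_single, one_smul, hE]
    simp
  refine LinearMap.ext fun v => ?_
  rw [hs.dec v, map_add, LinearMap.zero_apply]
  have h3 : f (cV (lc v)) = 0 := LinearMap.congr_fun h1 (lc v)
  have h4 : f (Finsupp.linearCombination ℚ E (od v)) = 0 := LinearMap.congr_fun h2 (od v)
  rw [h3, h4, add_zero]

theorem mY3C {F : Type} [Field F] {cV : V F →ₗ[ℚ] V (RatFunc F)}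
    {lc : V (RatFunc F) →ₗ[ℚ] V F} {od : V (RatFunc F) →ₗ[ℚ] (F →₀ ℚ)} (hs : Spl cV lc od)
    {vi : P1 (RatFunc F) → P1 F} (hvi : Vinf vi)
    (hF : ∀ α ∈ R 2 F, mapP (RatFunc.C : F →+* RatFunc F) α ∈ R 2 (RatFunc F))
    (hFTR : ∀ {G N : Type} [Field G] [AddCommGroup N] [Module ℚ N] (ψ : P1 G → N), Kil 2 ψ →
      FT5 (fun x : G => ψ (some x)) ∧ ψ none = 0)
    (hEX2 : ∀ {N : Type} [AddCommGroup N] [Module ℚ N] (ψ : P1 (RatFunc F) → N), Kil 2 ψ →
      (∀ c, ψ (cst c) = 0) → ∃ A : V (RatFunc F) →ₗ[ℚ] V (RatFunc F) →ₗ[ℚ] N, Al2 A ∧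
        (∀ (c : F) v, A (lg (RatFunc.C c)) v = 0) ∧ ∀ x, ψ x = A (cl1 x) (cl x))
    {L : P1 (RatFunc F) → (V (RatFunc F) →ₗ[ℚ] V (RatFunc F) →ₗ[ℚ] ℚ)} (hL : Ls L)
    (hcl : ∀ x k, L x (cl x) k = 0) (hu : ∀ x (u : F) k, L x (lg (RatFunc.C u)) k = 0) :
    ∀ c, L (cst c) = 0 := by
  -- the difference
  have hkil : Kil 2 (fun x => L x - L (cst (vi x))) := by
    intro α hα
    have h1 := hL.kil α hα
    have h2 : mapP (RatFunc.C : F →+* RatFunc F) (Finsupp.mapDomain vi α) ∈
        R 2 (RatFunc F) := hF _ (hvi.kil 0 α hα)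
    have h3 := hL.kil _ h2
    have h4 : mapP (RatFunc.C : F →+* RatFunc F) (Finsupp.mapDomain vi α) =
        Finsupp.mapDomain cst (Finsupp.mapDomain vi α) := rfl
    rw [h4, ← Finsupp.mapDomain_comp, Finsupp.linearCombination_mapDomain] at h3
    rw [Finsupp.linearCombination_apply] at h1 h3 ⊢
    simp only [smul_sub]
    rw [Finsupp.sum_sub, h1]
    have h5 : (α.sum fun a b => b • L (cst (vi a))) = 0 := h3
    rw [h5, sub_zero]
  obtain ⟨A, hA2, hAc, hAx⟩ := hEX2 _ hkil (fun c => by rw [hvi.cst, sub_self])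
  obtain ⟨hft, hnone⟩ := hFTR L hL.kil
  have hL0 : L (some 0) = 0 := hft.zero
  have hL1 : L (some 1) = 0 := by
    have h1 := hft.one_sub 0
    rw [sub_zero] at h1
    rw [h1, hL0, neg_zero]
  have hcnone : L (cst none) = 0 := hnone
  have hcone : L (cst (some 1)) = 0 := by
    have h1 : (cst (some (1 : F)) : P1 (RatFunc F)) = some 1 := by
      change some (RatFunc.C (1 : F)) = some 1
      rw [map_one]
    rw [h1, hL1]
  have hczero : L (cst (some 0)) = 0 := by
    have h1 : (cst (some (0 : F)) : P1 (RatFunc F)) = some 0 := by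
      change some (RatFunc.C (0 : F)) = some 0
      rw [map_zero]
    rw [h1, hL0]
  have hAc' : ∀ (c : F) v, A v (lg (RatFunc.C c)) = 0 := by
    intro c v
    rw [y3c_anti hA2, hAc, neg_zero]
  have hu' : ∀ x (u : F) k, L x k (lg (RatFunc.C u)) = 0 := by
    intro x u k
    rw [y3c_anti (hL.alt x), hu, neg_zero]
  -- (1)
  have h1 : ∀ a p : F, p ≠ a → L (x1 a p) = A (E p) (E a) := by
    intro a p hpa
    have h2 := hAx (x1 a p)
    have h3 : vi (x1 a p) = none := hvi.lin a (p - a)⁻¹ (inv_ne_zero (sub_ne_zero.2 hpa))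
    rw [h3, hcnone, sub_zero, cl1_x1 hpa, cl_x1 hpa] at h2
    rw [h2]
    exact (y3c_e1 (hAc _) (hAc' _) _ _).1
  have hpAA : ∀ a p : F, Al2 (A (E p) (E a)) ∧ ∀ k, A (E p) (E a) (E a) k = 0 := by
    intro a p
    by_cases hpa : p = a
    · subst hpa
      rw [hA2 (E p)]
      exact ⟨fun v => rfl, fun k => rfl⟩
    · refine ⟨?_, fun k => ?_⟩
      · rw [← h1 a p hpa]
        exact hL.alt _
      · have h2 := hcl (x1 a p) k
        rw [cl_x1 hpa, map_sub, LinearMap.sub_apply, hu, sub_zero, h1 a p hpa] at h2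
        exact h2
  -- (2)
  have h2 : ∀ a b : F, a ≠ b → ∀ k, A (E b) (E a) (E b) k = 0 := by
    intro a b hab k
    have h3 := hAx (x2 a b 1)
    have h4 : vi (x2 a b 1) = some 1 := hvi.frac a b 1
    rw [h4, hcone, sub_zero, cl1_x2_one hab, cl_x2 one_ne_zero] at h3
    rw [(y3c_e1 (hAc _) (hAc' _) _ _).2.1] at h3
    have h5 := hcl (x2 a b 1) k
    rw [cl_x2 one_ne_zero, map_add, LinearMap.add_apply, hu, zero_add, h3] at h5
    simp only [map_sub, LinearMap.sub_apply, LinearMap.neg_apply, hA2 (E b),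
      LinearMap.zero_apply, (hpAA a b).2 k] at h5
    linarith
  -- (3)
  have h3 : ∀ a b p : F, a ≠ b → p ≠ a → p ≠ b →
      L (cst (some ((p - b) / (p - a)))) (E b) (E a) = 0 := by
    intro a b p hab hpa hpb
    have hc : (p - b) / (p - a) ≠ 0 := div_ne_zero (sub_ne_zero.2 hpb) (sub_ne_zero.2 hpa)
    have h4 := hAx (x2 a b ((p - b) / (p - a)))
    have h5 : vi (x2 a b ((p - b) / (p - a))) = some ((p - b) / (p - a)) := hvi.frac a b _
    rw [h5, cl1_x2 hab hpa, cl_x2 hc, (y3c_e1 (hAc _) (hAc' _) _ _).2.2] at h4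
    have h6 : L (x2 a b ((p - b) / (p - a))) (E a - E b) (E a) = 0 := by
      have h7 := hcl (x2 a b ((p - b) / (p - a))) (E a)
      rw [cl_x2 hc, map_add, LinearMap.add_apply, hu, zero_add] at h7
      exact h7
    have h8 : L (x2 a b ((p - b) / (p - a))) = A (E p - E b) (E a - E b) +
        L (cst (some ((p - b) / (p - a)))) := by
      rw [← h4]
      abel
    rw [h8] at h6
    have e7 := hL.alt (cst (some ((p - b) / (p - a)))) (E a)
    generalize L (cst (some ((p - b) / (p - a)))) = B at h6 e7 ⊢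
    have e1 := (hpAA a p).2 (E a)
    have e2 : A (E p) (E a) (E b) (E a) = 0 := by
      rw [y3c_anti (hpAA a p).1, (hpAA a p).2, neg_zero]
    have e3 := (hpAA b p).1 (E a)
    have e4 := (hpAA b p).2 (E a)
    have e5 := (hpAA a b).2 (E a)
    have e6 := h2 a b hab (E a)
    simp only [map_sub, LinearMap.sub_apply, LinearMap.add_apply,
      hA2 (E b), LinearMap.zero_apply, e1, e2, e3, e4, e5, e6, e7] at h6
    linarith
  have h4 : ∀ (c : F), c ≠ 0 → c ≠ 1 → ∀ a b : F, L (cst (some c)) (E b) (E a) = 0 := by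
    intro c hc0 hc1 a b
    by_cases hab : a = b
    · subst hab
      exact hL.alt _ _
    · have hc1' : (1 : F) - c ≠ 0 := sub_ne_zero.2 (Ne.symm hc1)
      have hba : b - a ≠ 0 := sub_ne_zero.2 (Ne.symm hab)
      have hpa : (b - c * a) / (1 - c) - a = (b - a) / (1 - c) := by
        field_simp
        ring
      have hpb : (b - c * a) / (1 - c) - b = c * (b - a) / (1 - c) := by
        field_simp
        ring
      have h5 := h3 a b ((b - c * a) / (1 - c)) hab
        (fun h => by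
          have h6 := sub_eq_zero.2 h
          rw [hpa] at h6
          exact div_ne_zero hba hc1' h6)
        (fun h => by
          have h6 := sub_eq_zero.2 h
          rw [hpb] at h6
          exact div_ne_zero (mul_ne_zero hc0 hba) hc1' h6)
      have h7 : ((b - c * a) / (1 - c) - b) / ((b - c * a) / (1 - c) - a) = c := by
        rw [hpa, hpb]
        field_simp
      rw [h7] at h5
      exact h5
  -- conclusion
  intro c
  have hEE : ∀ a b : F, L (cst c) (E b) (E a) = 0 := by
    intro a b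
    cases c with
    | none => rw [hcnone]; rfl
    | some c =>
      by_cases hc0 : c = 0
      · subst hc0
        rw [hczero]
        rfl
      · by_cases hc1 : c = 1
        · subst hc1
          rw [hcone]
          rfl
        · exact h4 c hc0 hc1 a b
  refine y3c_lin hs _ (fun u => ?_) (fun b => ?_)
  · refine LinearMap.ext fun k => ?_
    rw [hu]
    rfl
  · exact y3c_lin hs _ (fun u => hu' _ _ _) (fun a => hEE a b)

end

end Pool.Agent.Helper19.HV
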